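import Pool.Agent.helper28.Coul.MC4

/-!
# The optimal Polyak-Lojasiewicz constant of the Coulomb MMD on the torus

`c_d = 2(d+2)/(3d)` for every `d ≥ 2`; in particular `c_d ≠ 2/d`.
-/

set_option autoImplicit false

namespace Pool.Agent.Results.MP_91511c_an.OptimalConstant

open Pool.Agent.helper28.Coul

theorem result (d : ℕ) (hd : 2 ≤ d) :
    cOpt d = ENNReal.ofReal (2 * ((d : ℝ) + 2) / (3 * d)) ∧
      cOpt d ≠ ENNReal.ofReal (2 / (d : ℝ)) := by
  have h := cOpt_eq (d := d) (by omega)
  refine ⟨h, ?_⟩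
  rw [h]
  intro h2
  have hd' : (2 : ℝ) ≤ d := by exact_mod_cast hd
  have hpos : (0 : ℝ) < d := by linarith
  have h3 := (ENNReal.ofReal_eq_ofReal_iff (by positivity) (by positivity)).mp h2
  field_simp at h3
  linarith

end Pool.Agent.Results.MP_91511c_an.OptimalConstant
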